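import Mathlib

namespace Pool.Agent.Results.MP_37b92f_co.Spread

open Filter

/-- an ordered graph: a simple graph on `Fin n` with its natural order -/
structure OG where
  n : ℕ
  G : SimpleGraph (Fin n)

/-- number of edges -/
noncomputable def OG.e (A : OG) : ℕ := A.G.edgeSet.ncard

/-- `φ` is an embedding of `H` into the subgraph `S` of `A` -/
def EmbIn (H A : OG) (S : A.G.Subgraph) (φ : Fin H.n → Fin A.n) : Prop :=
  StrictMono φ ∧ (∀ u, φ u ∈ S.verts) ∧ ∀ u v, H.G.Adj u v → S.Adj (φ u) (φ v)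

/-- `φ` is an embedding of `H` into `A` -/
def Emb (H A : OG) (φ : Fin H.n → Fin A.n) : Prop :=
  StrictMono φ ∧ ∀ u v, H.G.Adj u v → A.G.Adj (φ u) (φ v)

noncomputable def rho (F A : OG) : ℝ :=
  sSup {x : ℝ | ∃ S : A.G.Subgraph, (¬ ∃ φ, EmbIn F A S φ) ∧
    x = (S.edgeSet.ncard : ℝ) / (A.e : ℝ)}

noncomputable def rhoInf (F : OG) : ℝ := sInf {x : ℝ | ∃ A : OG, 1 ≤ A.e ∧ x = rho F A}

def Universal (A : ℕ → OG) : Prop :=
  (∀ n, 1 ≤ (A n).e) ∧ ∀ F : OG, Tendsto (fun n => rho F (A n)) atTop (nhds (rhoInf F))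

/-- the edge set `φ(H)` -/
def img (H A : OG) (φ : Fin H.n → Fin A.n) : Set (Sym2 (Fin A.n)) := Sym2.map φ '' H.G.edgeSet

open Classical in
/-- probability that `x` lies in `φ(H)` when `φ` is uniform on `𝓕` -/
noncomputable def prob (H A : OG) (𝓕 : Finset (Fin H.n → Fin A.n)) (x : Sym2 (Fin A.n)) : ℝ :=
  ((𝓕.filter fun φ => x ∈ img H A φ).card : ℝ) / (𝓕.card : ℝ)

noncomputable def maxProb (H A : OG) (𝓕 : Finset (Fin H.n → Fin A.n)) : ℝ :=
  ⨆ x : A.G.edgeSet, prob H A 𝓕 x.1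

theorem sub_le (A : OG) (S : A.G.Subgraph) : S.edgeSet.ncard ≤ A.e :=
  Set.ncard_le_ncard S.edgeSet_subset (Set.toFinite _)

theorem bdd (F A : OG) : BddAbove {x : ℝ | ∃ S : A.G.Subgraph, (¬ ∃ φ, EmbIn F A S φ) ∧
    x = (S.edgeSet.ncard : ℝ) / (A.e : ℝ)} := by
  refine ⟨1, ?_⟩
  rintro x ⟨S, _, rfl⟩
  exact div_le_one_of_le₀ (by exact_mod_cast sub_le A S) (Nat.cast_nonneg _)

theorem rho_nonneg (F A : OG) : 0 ≤ rho F A := by
  refine Real.sSup_nonneg ?_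
  rintro x ⟨S, _, rfl⟩
  positivity

theorem rhoInf_lt (F : OG) (h : 2 ≤ F.n) : rhoInf F < 1 := by
  let K : OG := ⟨F.n, ⊤⟩
  have hnt : Nontrivial (Fin F.n) := Fin.nontrivial_iff_two_le.2 h
  have hK : 1 ≤ K.e := by
    obtain ⟨a, b, hab⟩ := exists_pair_ne (Fin F.n)
    exact (Set.ncard_pos (Set.toFinite _)).2 ⟨s(a, b), hab⟩
  have hK' : (1 : ℝ) ≤ K.e := by exact_mod_cast hK
  have h1 : rhoInf F ≤ rho F K :=
    csInf_le ⟨0, by rintro x ⟨A, _, rfl⟩; exact rho_nonneg F A⟩ ⟨K, hK, rfl⟩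
  have h2 : rho F K ≤ ((K.e : ℝ) - 1) / K.e := by
    refine Real.sSup_le ?_ (div_nonneg (by linarith) (by linarith))
    rintro x ⟨S, hS, rfl⟩
    have hlt : S.edgeSet.ncard < K.e := by
      refine Set.ncard_lt_ncard (Set.ssubset_iff_subset_ne.2 ⟨S.edgeSet_subset, ?_⟩)
        (Set.toFinite _)
      intro heq
      have hadj : ∀ u v : Fin F.n, u ≠ v → S.Adj u v := by
        intro u v huv
        have : s(u, v) ∈ S.edgeSet := by rw [heq]; exact huv
        exact this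
      refine hS ⟨id, strictMono_id, fun u => ?_, fun u v huv => hadj u v huv.ne⟩
      obtain ⟨v, hv⟩ := exists_ne u
      exact (hadj u v hv.symm).fst_mem
    have : (S.edgeSet.ncard : ℝ) + 1 ≤ K.e := by exact_mod_cast hlt
    gcongr
    linarith
  have h3 : ((K.e : ℝ) - 1) / K.e < 1 := by
    rw [div_lt_one (by linarith)]; linarith
  linarith

theorem exists_emb (F A : OG) (hA : 1 ≤ A.e) (h : rho F A < 1) : ∃ φ, Emb F A φ := by
  by_contra hne
  have hA' : (1 : ℝ) ≤ A.e := by exact_mod_cast hA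
  have : (1 : ℝ) ≤ rho F A := by
    refine le_csSup (bdd F A) ⟨⊤, ?_, ?_⟩
    · rintro ⟨φ, h1, _, h3⟩
      exact hne ⟨φ, h1, h3⟩
    · rw [SimpleGraph.Subgraph.edgeSet_top]
      exact (div_self (by show (A.e : ℝ) ≠ 0; linarith)).symm
  linarith

theorem ev_clique (A : ℕ → OG) (hA : Universal A) (m : ℕ) :
    ∀ᶠ n in atTop, ∃ φ, Emb ⟨m + 2, ⊤⟩ (A n) φ := by
  have h := (hA.2 ⟨m + 2, ⊤⟩).eventually (gt_mem_nhds (rhoInf_lt ⟨m + 2, ⊤⟩ (by simp)))
  exact h.mono fun n hn => exists_emb _ _ (hA.1 n) hn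

theorem e_tendsto (A : ℕ → OG) (hA : Universal A) :
    Tendsto (fun n => ((A n).e : ℝ)) atTop atTop := by
  refine tendsto_natCast_atTop_atTop.comp (tendsto_atTop.2 fun m => ?_)
  refine (ev_clique A hA m).mono ?_
  rintro n ⟨φ, h1, h2⟩
  have hinj : Function.Injective fun i : Fin (m + 1) => s(φ 0, φ i.succ) := by
    intro i j hij
    rcases Sym2.eq_iff.1 hij with ⟨_, h⟩ | ⟨h, _⟩
    · exact Fin.succ_injective _ (h1.injective h)
    · exact absurd (h1.injective h) (Fin.succ_ne_zero j).symm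
  have hsub : Set.range (fun i : Fin (m + 1) => s(φ 0, φ i.succ)) ⊆ (A n).G.edgeSet := by
    rintro _ ⟨i, rfl⟩
    exact h2 0 i.succ (Fin.succ_ne_zero i).symm
  have := Set.ncard_le_ncard hsub (Set.toFinite _)
  rw [Set.ncard_range_of_injective hinj] at this
  simp only [Nat.card_eq_fintype_card, Fintype.card_fin] at this
  exact le_trans (Nat.le_succ m) this

theorem packing (H A : OG) (hH : 1 ≤ H.e) (hA : 1 ≤ A.e) :
    ∃ 𝓕 : Finset (Fin H.n → Fin A.n), (∀ φ ∈ 𝓕, Emb H A φ) ∧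
      (∀ φ ∈ 𝓕, ∀ ψ ∈ 𝓕, ∀ x, x ∈ img H A φ → x ∈ img H A ψ → φ = ψ) ∧
      (1 - rho H A) * A.e ≤ 𝓕.card * H.e := by
  classical
  obtain ⟨𝓕, h𝓕, hmax⟩ := Finset.exists_max_image
    (Finset.univ.filter fun 𝓕 : Finset (Fin H.n → Fin A.n) => (∀ φ ∈ 𝓕, Emb H A φ) ∧
      (∀ φ ∈ 𝓕, ∀ ψ ∈ 𝓕, ∀ x, x ∈ img H A φ → x ∈ img H A ψ → φ = ψ)) Finset.card
    ⟨∅, by simp⟩
  obtain ⟨_, h1, h2⟩ := Finset.mem_filter.1 h𝓕
  refine ⟨𝓕, h1, h2, ?_⟩
  let U : Finset (Sym2 (Fin A.n)) := 𝓕.biUnion fun φ => (img H A φ).toFinset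
  have hU : U.card ≤ 𝓕.card * H.e := by
    refine Finset.card_biUnion_le_card_mul _ _ _ fun φ _ => ?_
    rw [← Set.ncard_eq_toFinset_card']
    exact Set.ncard_image_le (Set.toFinite _)
  let S : A.G.Subgraph := (⊤ : A.G.Subgraph).deleteEdges U
  have hfree : ¬ ∃ φ, EmbIn H A S φ := by
    rintro ⟨φ, g1, _, g3⟩
    have hout : ∀ x ∈ img H A φ, x ∉ U := by
      rintro _ ⟨y, hy, rfl⟩
      induction y using Sym2.ind with
      | _ u v => exact (g3 u v hy).2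
    have hin : ∀ ψ ∈ 𝓕, ∀ x ∈ img H A ψ, x ∈ U := fun ψ hψ x hx =>
      Finset.mem_biUnion.2 ⟨ψ, hψ, Set.mem_toFinset.2 hx⟩
    have hφ : φ ∉ 𝓕 := by
      intro h
      obtain ⟨y, hy⟩ := (Set.ncard_pos (Set.toFinite _)).1 hH
      exact hout _ ⟨y, hy, rfl⟩ (hin φ h _ ⟨y, hy, rfl⟩)
    have := hmax (insert φ 𝓕) (Finset.mem_filter.2 ⟨Finset.mem_univ _, ?_, ?_⟩)
    · rw [Finset.card_insert_of_notMem hφ] at this
      omega
    · intro ψ hψ
      rcases Finset.mem_insert.1 hψ with rfl | hψ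
      · exact ⟨g1, fun u v h => (g3 u v h).1⟩
      · exact h1 ψ hψ
    · intro a ha b hb x hxa hxb
      rcases Finset.mem_insert.1 ha with ha' | ha' <;> rcases Finset.mem_insert.1 hb with hb' | hb'
      · rw [ha', hb']
      · exact absurd (hin b hb' x hxb) (hout x (ha' ▸ hxa))
      · exact absurd (hin a ha' x hxa) (hout x (hb' ▸ hxb))
      · exact h2 a ha' b hb' x hxa hxb
  have hS : A.e ≤ S.edgeSet.ncard + U.card := by
    have hsub : A.G.edgeSet ⊆ S.edgeSet ∪ (U : Set _) := by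
      intro x hx
      induction x using Sym2.ind with
      | _ u v =>
        by_cases hxU : s(u, v) ∈ U
        · exact Or.inr hxU
        · exact Or.inl ⟨hx, hxU⟩
    have := (Set.ncard_le_ncard hsub (Set.toFinite _)).trans (Set.ncard_union_le _ _)
    rwa [Set.ncard_coe_finset] at this
  have hA' : (1 : ℝ) ≤ A.e := by exact_mod_cast hA
  have h3 : (S.edgeSet.ncard : ℝ) / A.e ≤ rho H A := le_csSup (bdd H A) ⟨S, hfree, rfl⟩
  rw [div_le_iff₀ (by linarith)] at h3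
  have h4 : (A.e : ℝ) ≤ S.edgeSet.ncard + 𝓕.card * H.e := by
    exact_mod_cast hS.trans (Nat.add_le_add_left hU _)
  linarith

theorem main (A : ℕ → OG) (hA : Universal A) (H : OG) :
    ∃ (𝓕 : ∀ n, Finset (Fin H.n → Fin (A n).n)) (C : ℝ), 0 ≤ C ∧
      ∀ᶠ n in atTop, (𝓕 n).Nonempty ∧ (∀ φ ∈ 𝓕 n, Emb H (A n) φ) ∧
        maxProb H (A n) (𝓕 n) ≤ C * ((H.e : ℝ) / (A n).e) := by
  classical
  by_cases hH : 1 ≤ H.e
  · have h2 : 2 ≤ H.n := by
      obtain ⟨y, hy⟩ := (Set.ncard_pos (Set.toFinite _)).1 hH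
      induction y using Sym2.ind with
      | _ u v => exact Fin.nontrivial_iff_two_le.1 ⟨u, v, (H.G.mem_edgeSet.1 hy).ne⟩
    have hlt := rhoInf_lt H h2
    choose 𝓕 g1 g2 g3 using fun n => packing H (A n) hH (hA.1 n)
    have hc : 0 < (1 - rhoInf H) / 2 := by linarith
    refine ⟨𝓕, 1 / ((1 - rhoInf H) / 2), by positivity, ?_⟩
    have h := (hA.2 H).eventually (gt_mem_nhds (by linarith : rhoInf H < 1 - (1 - rhoInf H) / 2))
    refine h.mono fun n hn => ?_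
    have hA' : (1 : ℝ) ≤ (A n).e := by exact_mod_cast hA.1 n
    have hH' : (1 : ℝ) ≤ H.e := by exact_mod_cast hH
    have k1 : (1 - rhoInf H) / 2 * (A n).e ≤ (𝓕 n).card * H.e := by
      refine le_trans ?_ (g3 n)
      gcongr
      linarith
    have k2 : (0 : ℝ) < (𝓕 n).card := by
      have : (0 : ℝ) < (𝓕 n).card * H.e := lt_of_lt_of_le (by positivity) k1
      exact (mul_pos_iff_of_pos_right (by linarith)).1 this
    refine ⟨Finset.card_pos.1 (by exact_mod_cast k2), g1 n, ?_⟩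
    refine Real.iSup_le (fun x => ?_) (by positivity)
    have k3 : ((𝓕 n).filter fun φ => x.1 ∈ img H (A n) φ).card ≤ 1 :=
      Finset.card_le_one.2 fun a ha b hb =>
        g2 n a (Finset.mem_filter.1 ha).1 b (Finset.mem_filter.1 hb).1 x.1
          (Finset.mem_filter.1 ha).2 (Finset.mem_filter.1 hb).2
    have k4 : prob H (A n) (𝓕 n) x.1 ≤ 1 / ((𝓕 n).card : ℝ) := by
      unfold prob
      gcongr
      exact_mod_cast k3
    refine k4.trans ?_
    rw [div_mul_div_comm, one_mul, div_le_div_iff₀ k2 (by positivity)]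
    linarith
  · have hE : H.G.edgeSet = ∅ := by
      have : H.G.edgeSet.ncard = 0 := by unfold OG.e at hH; omega
      exact (Set.ncard_eq_zero (Set.toFinite _)).1 this
    refine ⟨fun n => Finset.univ.filter fun φ => Emb H (A n) φ, 0, le_refl _, ?_⟩
    refine (ev_clique A hA H.n).mono ?_
    rintro n ⟨φ, h1, _⟩
    refine ⟨⟨φ ∘ Fin.castLE (Nat.le_add_right _ 2), Finset.mem_filter.2 ⟨Finset.mem_univ _,
      h1.comp (Fin.strictMono_castLE _), fun u v h => ?_⟩⟩,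
      fun ψ hψ => (Finset.mem_filter.1 hψ).2, ?_⟩
    · have : s(u, v) ∈ H.G.edgeSet := h
      rw [hE] at this
      exact this.elim
    · refine Real.iSup_le (fun x => ?_) (by simp)
      simp [prob, img, hE]

theorem result (A : ℕ → OG) (hA : Universal A) (H : OG) :
    ∃ (𝓕 : ∀ n, Finset (Fin H.n → Fin (A n).n)) (C : ℝ),
      ∀ᶠ n in atTop, (𝓕 n).Nonempty ∧ (∀ φ ∈ 𝓕 n, Emb H (A n) φ) ∧
        maxProb H (A n) (𝓕 n) ≤ C * ((H.e : ℝ) / (A n).e) := by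
  obtain ⟨𝓕, C, _, h⟩ := main A hA H
  exact ⟨𝓕, C, h⟩

end Pool.Agent.Results.MP_37b92f_co.Spread
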